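import Pool.Agent.H.MP_ae4adf_co.D

namespace Pool.Agent.Results.MP_ae4adf_co.No
open Pool.Agent.H.MP_ae4adf_co Set

/-- a set of `n` pairwise non-congruent prototiles -/
def Proto (n : ℕ) (S : Set (Set ℂ)) : Prop :=
  S.Finite ∧ S.ncard = n ∧ (∀ P ∈ S, IsDisk P) ∧ S.Pairwise fun P Q => ¬Cong P Q

def Bad (n m k : ℕ) : Prop := ∃ S, Proto n S ∧ ¬Tiles S ∧ (∃ A, IsPatch S A ∧ A.ncard = m) ∧
  ∀ A, IsPatch S A → A.ncard = m → Surr S k A

lemma ex (k : ℕ) : ∃ n ∈ Finset.Icc 1 16, Bad n 1 k := by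
  obtain ⟨S, h1, h2, h3, h4, h5⟩ := main k
  let R := fun T => Classical.epsilon fun P => P ∈ S ∧ Cong P T
  have rf : ∀ T, Cong T T := fun T => ⟨.refl _, (image_id T).symm⟩
  have r1 : ∀ T ∈ S, R T ∈ S ∧ Cong (R T) T := fun T h =>
    Classical.epsilon_spec (p := fun P => P ∈ S ∧ Cong P T) ⟨T, h, rf T⟩
  have r2 : ∀ T T', Cong T T' → R T = R T' := fun T T' h => congrArg Classical.epsilon
    (funext fun P => propext (and_congr_right fun _ => ⟨(·.trans h), (·.trans h.symm)⟩))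
  have e : ∀ A, Packing (R '' S) A ↔ Packing S A := fun A => and_congr_left fun _ =>
    forall₂_congr fun T _ => ⟨fun ⟨_, ⟨P, a, b⟩, c⟩ => ⟨_, (r1 P a).1, b ▸ c⟩,
      fun ⟨P, a, b⟩ => ⟨_, ⟨P, a, rfl⟩, (r1 P a).2.trans b⟩⟩
  refine ⟨_, Finset.mem_Icc.2 ⟨(ncard_pos (h1.image R)).2 (h3.image R), (ncard_image_le h1).trans h2⟩,
    R '' S, ⟨h1.image _, rfl, ?_, ?_⟩, by simpa only [Tiles, e] using h4, ?_, fun A a b => ?_⟩
  · rintro _ ⟨T, h, rfl⟩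
    simpa using (h5 _ (r1 T h).1).1.2.2
  · rintro _ ⟨T, h, rfl⟩ _ ⟨T', h', rfl⟩ n c
    exact n (r2 _ _ (((r1 T h).2.symm.trans c).trans (r1 T' h').2))
  · obtain ⟨P, h⟩ := h3
    exact ⟨{P}, by simpa only [IsPatch, e] using (h5 P h).1, by simp⟩
  · obtain ⟨T, rfl⟩ := ncard_eq_one.1 b
    obtain ⟨P, p, c⟩ := ((e _).1 a.2.1).1 T rfl
    simpa only [Surr, IsPatch, e] using (h5 P p).2.cong c

theorem result : ∃ n > 0, ∃ m > 0, ∀ k, Bad n m k := by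
  by_contra! h
  choose! f hf using fun n hn => h n hn 1 one_pos
  obtain ⟨n, hn, S, a, b, c, d⟩ := ex ((Finset.Icc 1 16).sup f)
  exact hf n (Finset.mem_Icc.1 hn).1 ⟨S, a, b, c, fun A p q => (d A p q).imp fun P h =>
    ⟨h.1, fun i hi => h.2 i (hi.trans_le (Finset.le_sup hn))⟩⟩

end Pool.Agent.Results.MP_ae4adf_co.No
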